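import Pool.Agent.helper26.PS.Final

/-!
Every optimizing graphon of the constrained p-star model has at most three podes.

Outline of the proof for positive `β` (the case of nonpositive `β` is convexity).

* Euler-Lagrange equation: an optimizer `h` with degree function `g` satisfies
  `h(x,y) = sigmoid (s(g x) + s(g y) + 2 lam)` almost everywhere, where `s(u) = β p u^(p-1)`.
* Comparison inequality: with `l(u,v) = L (s u + s v + 2 lam)`, `L t = log (1 + e^t)`, the law of
  `g` maximises `nu -> (1/2) l(nu,nu) - (p-1) β nu(u^p)` over all laws on the unit interval up to
  a multiple of the square of the defect of the edge density.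
* Second order condition at four points of the support of the law of `g`: the form
  `sum a_i a_j l(x_i,x_j)` is nonpositive on the vectors `a` with `sum a_i = 0` and
  `sum a_i G(x_i) = 0`.
* The form `sum a_i a_j L(u_i+u_j)` on the vectors with `sum a_i = 0` over four increasing points
  has a 3 by 3 matrix of second differences with positive diagonal and negative determinant, so it
  is positive somewhere on the plane cut out by the second constraint: a contradiction.
-/

namespace Pool.Agent.Results.MP_94b6e3_pr.AtMostThreePodes

open Pool.Agent.helper26.PS

/-- For every integer `p ≥ 2`, every edge density `ε` in `(0,1)` and every real `β`, every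
optimizing graphon of the constrained p-star model has at most three podes. -/
theorem result : ∀ p : ℕ, 2 ≤ p → ∀ ε : ℝ, 0 < ε → ε < 1 → ∀ β : ℝ,
    ∀ h : unitInterval → unitInterval → ℝ, IsOptimizer p ε β h → AtMostPodes 3 h :=
  fun p hp ε h0 h1 β h hopt => at_most_three p hp ε h0 h1 β h hopt

end Pool.Agent.Results.MP_94b6e3_pr.AtMostThreePodes
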