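import Pool.Agent.helper26.B3.NoTri
import Pool.Agent.helper52.B3.Region
import Pool.Agent.helper85.B3.T1
import Pool.Agent.helper85.B3.Asm

/-!
Every optimizing graphon of the constrained 2-star model has at most two podes: the case `p = 2` of
the question, for all edge densities and all `β`.

Outline of the proof for positive `β`. By `AtMostThreePodes` one has to exclude a degree law with
exactly three atoms. With `b = 2 β` let `y_i` be `b` times the degrees plus half of the Lagrange
multiplier, `y1 < y2 < y3`, and `m_i` the weights times `b`; `S` is the sigmoid, `s` its
derivative, `L` its primitive, and `rho(x) = sum_j m_j s(x + y_j)`.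

* First order conditions (`Tri.E1, E2, A1, A2`): on each of the gaps `[y1,y2]`, `[y2,y3]` the
  density `rho` has the same mass and the same mean as Lebesgue measure.
* Second order conditions: `rho(y_i) <= 1`, and for the displacement of one end atom together with
  an exchange of weights between the three atoms (`Tri.T3`, `Tri.T1`).
* Symmetry (passing to the complement `1 - h`): one may assume `y2 <= 0`. Then
  `u = y2 + y3 > 0`, `p = -2 y2 >= 0`, `w = y2 - y1 < 2 u`.
* Analytic estimates: no solutions for small `u, p, w`; `p <= 37/4` for `u <= 5`; for `u >= 5`
  either the configuration is in a small compact region or the condition `T3` fails.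
* The compact rest is covered by 5279 boxes in the coordinates `(u, p, w)`. On each box a
  certificate (Farkas multipliers for the conditions `E1, E2, A1, A2`, `rho(y3) <= 1`, `T3`) is
  checked by the kernel at the corners of the box, with a table of `S`, `L`, `s` at multiples of
  `1/64`; the semiconvexity of averages of `s` bounds the error inside of the box.
-/

namespace Pool.Agent.Results.MP_94b6e3_pr.TwoStarBipodal

open Pool.Agent.helper26.PS Pool.Agent.helper26.B3

/-- For `p = 2`, every edge density `ε` in `(0,1)` and every real `β`, every optimizing graphon of
the constrained 2-star model has at most two podes: it is uniform or bipodal. -/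
theorem result : ∀ ε : ℝ, 0 < ε → ε < 1 → ∀ β : ℝ,
    ∀ h : unitInterval → unitInterval → ℝ, IsOptimizer 2 ε β h → AtMostPodes 2 h :=
  fun ε h0 h1 β h hopt => at_most_two_of triOfSupport
    (no_tri_of fun _ _ _ _ _ _ T h2 => T.region h2) ε h0 h1 β h hopt

end Pool.Agent.Results.MP_94b6e3_pr.TwoStarBipodal
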